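import Mathlib

set_option autoImplicit false

namespace Pool.Agent.Results.MP_37c1b2_nt.DensityThreeQuarters

open Filter Topology Finset

/-- `A` is a set of positive integers containing no triple `n, 2n, 3n` with `n` positive. -/
def TripleFree (A : Set ℕ) : Prop :=
  ∀ n : ℕ, 0 < n → ¬ (n ∈ A ∧ 2 * n ∈ A ∧ 3 * n ∈ A)

/-- The counting function `A(x)`, the number of elements of `A` that are at most the real `x`. -/
noncomputable def countUpTo (A : Set ℕ) (x : ℝ) : ℕ :=
  Set.ncard {a : ℕ | a ∈ A ∧ (a : ℝ) ≤ x}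

/-- `A` has (natural) density `d`. -/
def HasDensity (A : Set ℕ) (d : ℝ) : Prop :=
  Tendsto (fun x : ℝ => (countUpTo A x : ℝ) / x) atTop (𝓝 d)

/-- parity of the 3-adic valuation -/
def E (n : ℕ) : Prop := Even (padicValNat 3 n)

lemma E_two_mul {n : ℕ} (hn : 0 < n) : E (2 * n) ↔ E n := by
  unfold E
  have h3 : Fact (Nat.Prime 3) := ⟨by norm_num⟩
  rw [padicValNat.mul (by norm_num) (by omega)]
  have : padicValNat 3 2 = 0 := by
    apply padicValNat.eq_zero_of_not_dvd; norm_num
  rw [this, zero_add]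

lemma E_three_mul {n : ℕ} (hn : 0 < n) : E (3 * n) ↔ ¬ E n := by
  unfold E
  have h3 : Fact (Nat.Prime 3) := ⟨by norm_num⟩
  rw [padicValNat.mul (by norm_num) (by omega)]
  have : padicValNat 3 3 = 1 := by
    exact padicValNat_self
  rw [this, Nat.even_add]
  simp [Nat.even_iff]

lemma dvd_of_not_E {n : ℕ} (h : ¬ E n) : 3 ∣ n := by
  by_contra hc
  apply h
  unfold E
  rw [padicValNat.eq_zero_of_not_dvd hc]
  exact ⟨0, rfl⟩

open Classical in
/-- number of `n` in `[1,N]` with property `P` -/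
noncomputable def cnt (P : ℕ → Prop) (N : ℕ) : ℕ := ((Finset.Icc 1 N).filter P).card

lemma cnt_E_add (N : ℕ) : cnt E N + cnt E (N / 3) = N := by
  classical
  unfold cnt
  have h1 : ((Finset.Icc 1 N).filter (fun n => ¬ E n)).card = ((Finset.Icc 1 (N/3)).filter E).card := by
    symm
    apply Finset.card_bij (fun m _ => 3 * m)
    · intro m hm
      simp only [Finset.mem_filter, Finset.mem_Icc] at hm ⊢
      refine ⟨⟨by omega, by omega⟩, ?_⟩
      rw [E_three_mul (by omega)]
      simpa using hm.2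
    · intro a _ b _ hab
      simpa using hab
    · intro b hb
      simp only [Finset.mem_filter, Finset.mem_Icc] at hb
      obtain ⟨k, rfl⟩ := dvd_of_not_E hb.2
      refine ⟨k, ?_, rfl⟩
      simp only [Finset.mem_filter, Finset.mem_Icc]
      refine ⟨⟨by omega, by omega⟩, ?_⟩
      have := hb.2
      rw [E_three_mul (by omega)] at this
      simpa using this
  have h2 := Finset.card_filter_add_card_filter_not (s := Finset.Icc 1 N) (p := E)
  rw [h1] at h2
  simpa using h2

lemma cnt_E_bound (N : ℕ) : |4 * (cnt E N : ℤ) - 3 * N| ≤ 2 * (Nat.log 3 N + 1) := by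
  induction N using Nat.strong_induction_on with
  | _ N ih =>
    rcases Nat.lt_or_ge N 3 with hN | hN
    · have h := cnt_E_add N
      have h0 : N / 3 = 0 := by omega
      have hz : cnt E 0 = 0 := by simp [cnt]
      rw [h0, hz] at h
      have : cnt E N = N := by omega
      rw [this]
      have hlog : Nat.log 3 N = 0 := Nat.log_of_lt hN
      rw [hlog]
      have : (N : ℤ) < 3 := by exact_mod_cast hN
      have h0' : (0 : ℤ) ≤ N := by positivity
      rw [abs_le]; constructor <;> push_cast <;> omega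
    · have h := cnt_E_add N
      have ih' := ih (N / 3) (by omega)
      have hlog : Nat.log 3 N = Nat.log 3 (N / 3) + 1 := Nat.log_of_one_lt_of_le (by norm_num) hN
      rw [hlog]
      have hm : (N % 3) < 3 := Nat.mod_lt _ (by norm_num)
      have hd : N = 3 * (N / 3) + N % 3 := (Nat.div_add_mod N 3).symm
      generalize hq : N / 3 = q at *
      generalize hr : N % 3 = r at *
      generalize Nat.log 3 q = l at *
      generalize cnt E q = a at *
      generalize cnt E N = b at *
      rw [abs_le] at ih' ⊢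
      push_cast at ih' ⊢
      omega


open Classical in
/-- harmonic sum over `[1,N]` restricted to `P` -/
noncomputable def hs (P : ℕ → Prop) (N : ℕ) : ℝ := ∑ n ∈ (Finset.Icc 1 N).filter P, (1 : ℝ) / n

lemma hs_mono {P : ℕ → Prop} {M N : ℕ} (h : M ≤ N) : hs P M ≤ hs P N := by
  classical
  unfold hs
  apply Finset.sum_le_sum_of_subset_of_nonneg
  · intro x hx
    simp only [Finset.mem_filter, Finset.mem_Icc] at hx ⊢
    exact ⟨⟨hx.1.1, hx.1.2.trans h⟩, hx.2⟩
  · intros; positivity

lemma hs_split (P Q : ℕ → Prop) (N : ℕ) :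
    hs P N = hs (fun n => P n ∧ Q n) N + hs (fun n => P n ∧ ¬ Q n) N := by
  classical
  unfold hs
  rw [← Finset.sum_filter_add_sum_filter_not ((Finset.Icc 1 N).filter P) Q]
  rw [Finset.filter_filter, Finset.filter_filter]
  congr!

lemma hs_E_lower (N : ℕ) : (3 / 4 : ℝ) * hs (fun _ => True) N ≤ hs E N := by
  classical
  have h1 : hs (fun _ => True) N = hs E N + hs (fun n => ¬ E n) N := by
    have := hs_split (fun _ => True) E N
    simpa using this
  have h2 : hs (fun n => ¬ E n) N ≤ (1 / 3) * hs E N := by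
    have h3 : hs (fun n => ¬ E n) N ≤ ∑ m ∈ ((Finset.Icc 1 N).filter E), (1 : ℝ) / ((3 * m : ℕ) : ℝ) := by
      unfold hs
      rw [← Finset.sum_image (f := fun n : ℕ => (1 : ℝ) / n) (g := fun m => 3 * m)
        (s := (Finset.Icc 1 N).filter E)]
      · apply Finset.sum_le_sum_of_subset_of_nonneg
        · intro b hb
          simp only [Finset.mem_filter, Finset.mem_Icc] at hb
          obtain ⟨k, rfl⟩ := dvd_of_not_E hb.2
          simp only [Finset.mem_image, Finset.mem_filter, Finset.mem_Icc]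
          refine ⟨k, ⟨⟨by omega, by omega⟩, ?_⟩, rfl⟩
          have := hb.2
          rw [E_three_mul (by omega)] at this
          simpa using this
        · intros; positivity
      · intro a _ b _ hab
        simpa using hab
    refine h3.trans (le_of_eq ?_)
    unfold hs
    rw [Finset.mul_sum]
    apply Finset.sum_congr rfl
    intro m _
    push_cast
    ring
  linarith

lemma triple_ineq (A : Set ℕ) (hA : TripleFree A) (M : ℕ) :
    (1 / 3 : ℝ) * hs E M ≤ hs (fun n => n ∉ A) (3 * M) := by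
  classical
  rw [hs_split (fun n => n ∉ A) E (3 * M)]
  -- indicator of the complement
  obtain ⟨χ, hχ⟩ : ∃ χ : ℕ → ℝ, χ = fun n => if n ∈ A then 0 else 1 := ⟨_, rfl⟩
  have hχ0 : ∀ n, 0 ≤ χ n := by intro n; simp only [hχ]; split_ifs <;> norm_num
  obtain ⟨S, hS⟩ : ∃ S, S = (Finset.Icc 1 M).filter E := ⟨_, rfl⟩
  have hpos : ∀ n ∈ S, 0 < n := by
    intro n hn; simp only [hS, Finset.mem_filter, Finset.mem_Icc] at hn; omega
  have key : ∀ n ∈ S, (1 : ℝ) ≤ χ n + χ (2 * n) + χ (3 * n) := by
    intro n hn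
    have h := hA n (hpos n hn)
    by_cases h1 : n ∈ A
    · by_cases h2 : 2 * n ∈ A
      · have h3 : 3 * n ∉ A := fun h3 => h ⟨h1, h2, h3⟩
        simp [hχ, h1, h2, h3]
      · have := hχ0 (3 * n)
        have e1 : χ n = 0 := by simp [hχ, h1]
        have e2 : χ (2 * n) = 1 := by simp [hχ, h2]
        linarith
    · have := hχ0 (3 * n)
      have := hχ0 (2 * n)
      have e1 : χ n = 1 := by simp [hχ, h1]
      linarith
  have t1 : ∑ n ∈ S, χ n * (1 / (3 * n)) ≤ (1 / 3) * hs (fun n => n ∉ A ∧ E n) (3 * M) := by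
    unfold hs
    rw [Finset.mul_sum]
    have e : ∑ n ∈ S, χ n * (1 / (3 * n)) = ∑ n ∈ S.filter (fun n => n ∉ A), (1 / 3 : ℝ) * (1 / n) := by
      rw [Finset.sum_filter]
      apply Finset.sum_congr rfl
      intro n _
      simp only [hχ]
      split_ifs with h1 <;> ring
    rw [e]
    apply Finset.sum_le_sum_of_subset_of_nonneg
    · intro x hx
      simp only [hS, Finset.mem_filter, Finset.mem_Icc] at hx ⊢
      exact ⟨⟨hx.1.1.1, by omega⟩, hx.2, hx.1.2⟩
    · intros; positivity
  have t2 : ∑ n ∈ S, χ (2 * n) * (1 / (3 * n)) ≤ (2 / 3) * hs (fun n => n ∉ A ∧ E n) (3 * M) := by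
    unfold hs
    rw [Finset.mul_sum]
    have e : ∑ n ∈ S, χ (2 * n) * (1 / (3 * n)) =
        ∑ n ∈ (S.filter (fun n => 2 * n ∉ A)).image (fun n : ℕ => 2 * n), (2 / 3 : ℝ) * (1 / (n : ℝ)) := by
      rw [Finset.sum_image, Finset.sum_filter]
      · apply Finset.sum_congr rfl
        intro n hn
        have hn0 : (n : ℝ) ≠ 0 := by
          have := hpos n hn
          positivity
        simp only [hχ]
        split_ifs with h1
        · ring
        · push_cast
          field_simp
      · intro a _ b _ hab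
        simpa using hab
    rw [e]
    apply Finset.sum_le_sum_of_subset_of_nonneg
    · intro x hx
      simp only [hS, Finset.mem_filter, Finset.mem_Icc, Finset.mem_image] at hx ⊢
      obtain ⟨n, ⟨⟨⟨h1, h2⟩, h3⟩, h4⟩, rfl⟩ := hx
      refine ⟨⟨by omega, by omega⟩, h4, ?_⟩
      rw [E_two_mul (by omega)]
      exact h3
    · intros; positivity
  have t3 : ∑ n ∈ S, χ (3 * n) * (1 / (3 * n)) ≤ hs (fun n => n ∉ A ∧ ¬ E n) (3 * M) := by
    unfold hs
    have e : ∑ n ∈ S, χ (3 * n) * (1 / (3 * n)) =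
        ∑ n ∈ (S.filter (fun n => 3 * n ∉ A)).image (fun n : ℕ => 3 * n), (1 : ℝ) / (n : ℝ) := by
      rw [Finset.sum_image, Finset.sum_filter]
      · apply Finset.sum_congr rfl
        intro n hn
        simp only [hχ]
        split_ifs with h1
        · ring
        · push_cast
          ring
      · intro a _ b _ hab
        simpa using hab
    rw [e]
    apply Finset.sum_le_sum_of_subset_of_nonneg
    · intro x hx
      simp only [hS, Finset.mem_filter, Finset.mem_Icc, Finset.mem_image] at hx ⊢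
      obtain ⟨n, ⟨⟨⟨h1, h2⟩, h3⟩, h4⟩, rfl⟩ := hx
      refine ⟨⟨by omega, by omega⟩, h4, ?_⟩
      rw [E_three_mul (by omega)]
      simpa using h3
    · intros; positivity
  have tot : (1 / 3 : ℝ) * hs E M ≤ ∑ n ∈ S, (χ n * (1 / (3 * n)) + χ (2 * n) * (1 / (3 * n))
      + χ (3 * n) * (1 / (3 * n))) := by
    unfold hs
    rw [Finset.mul_sum, ← hS]
    apply Finset.sum_le_sum
    intro n hn
    have h := key n hn
    have hp : (0 : ℝ) ≤ 1 / (3 * n) := by positivity
    have : (1 : ℝ) / 3 * (1 / n) = 1 * (1 / (3 * n)) := by ring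
    rw [this]
    nlinarith
  rw [Finset.sum_add_distrib, Finset.sum_add_distrib] at tot
  linarith

lemma cnt_succ (P : ℕ → Prop) (N : ℕ) [Decidable (P (N + 1))] :
    (cnt P (N + 1) : ℝ) = cnt P N + (if P (N + 1) then 1 else 0) := by
  classical
  unfold cnt
  rw [← Finset.insert_Icc_right_eq_Icc_add_one (by omega : 1 ≤ N + 1), Finset.filter_insert]
  split_ifs with h
  · rw [Finset.card_insert_of_notMem]
    · push_cast; rfl
    · simp
  · simp

lemma hs_succ (P : ℕ → Prop) (N : ℕ) [Decidable (P (N + 1))] :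
    hs P (N + 1) = hs P N + (if P (N + 1) then 1 / ((N : ℝ) + 1) else 0) := by
  classical
  unfold hs
  rw [← Finset.insert_Icc_right_eq_Icc_add_one (by omega : 1 ≤ N + 1), Finset.filter_insert]
  split_ifs with h
  · rw [Finset.sum_insert]
    · push_cast; ring
    · simp
  · simp

lemma abel (P : ℕ → Prop) (N : ℕ) :
    hs P N = cnt P N / ((N : ℝ) + 1) + ∑ k ∈ Finset.Icc 1 N, (cnt P k : ℝ) / (k * (k + 1)) := by
  classical
  induction N with
  | zero => simp [hs, cnt]
  | succ N ih =>
    rw [hs_succ, ih, Finset.sum_Icc_succ_top (by omega), cnt_succ]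
    push_cast
    have h1 : (N : ℝ) + 1 ≠ 0 := by positivity
    have h2 : (N : ℝ) + 1 + 1 ≠ 0 := by positivity
    split_ifs
    · field_simp
      ring
    · field_simp
      ring


lemma cnt_le (P : ℕ → Prop) (N : ℕ) : cnt P N ≤ N := by
  classical
  unfold cnt
  refine (Finset.card_filter_le _ _).trans ?_
  simp

lemma cnt_compl (A : Set ℕ) (N : ℕ) : (cnt (fun n => n ∉ A) N : ℝ) = N - cnt (fun n => n ∈ A) N := by
  classical
  unfold cnt
  have h2 := Finset.card_filter_add_card_filter_not (s := Finset.Icc 1 N) (p := fun n => n ∈ A)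
  rw [Nat.card_Icc] at h2
  have h3 : (((Finset.Icc 1 N).filter (fun n => n ∈ A)).card : ℝ)
      + (((Finset.Icc 1 N).filter (fun n => n ∉ A)).card : ℝ) = N := by
    exact_mod_cast h2
  have h4 : (((Finset.Icc 1 N).filter (fun n => n ∉ A)).card : ℝ) =
     N - (((Finset.Icc 1 N).filter (fun n => n ∈ A)).card : ℝ) := by linarith
  convert h4

lemma countUpTo_eq (A : Set ℕ) (hpos : ∀ a ∈ A, 0 < a) (x : ℝ) (hx : 0 ≤ x) :
    countUpTo A x = cnt (fun n => n ∈ A) ⌊x⌋₊ := by
  classical
  unfold countUpTo cnt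
  rw [← Set.ncard_coe_finset]
  congr 1
  ext a
  simp only [Set.mem_setOf_eq, Finset.coe_filter, Finset.mem_Icc]
  constructor
  · rintro ⟨h1, h2⟩
    exact ⟨⟨hpos a h1, Nat.le_floor h2⟩, h1⟩
  · rintro ⟨⟨_, h2⟩, h3⟩
    exact ⟨h3, (Nat.le_floor_iff hx).1 h2⟩

lemma H_three (M : ℕ) (hM : 1 ≤ M) : hs (fun _ => True) (3 * M) ≤ hs (fun _ => True) M + 2 := by
  classical
  have h1 : ∀ N, hs (fun _ => True) N = ∑ n ∈ Finset.Icc 1 N, (1 : ℝ) / n := by
    intro N; unfold hs; congr 1; simp
  rw [h1, h1]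
  have h2 : Finset.Icc 1 (3 * M) = Finset.Icc 1 M ∪ Finset.Ioc M (3 * M) := by
    ext k; simp only [Finset.mem_Icc, Finset.mem_union, Finset.mem_Ioc]; omega
  have h3 : Disjoint (Finset.Icc 1 M) (Finset.Ioc M (3 * M)) := by
    rw [Finset.disjoint_left]; intro k; simp only [Finset.mem_Icc, Finset.mem_Ioc]; omega
  rw [h2, Finset.sum_union h3]
  have h4 : ∑ n ∈ Finset.Ioc M (3 * M), (1 : ℝ) / n ≤ ∑ n ∈ Finset.Ioc M (3 * M), (1 : ℝ) / M := by
    apply Finset.sum_le_sum
    intro i hi
    simp only [Finset.mem_Ioc] at hi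
    have hM' : (0 : ℝ) < M := by positivity
    apply one_div_le_one_div_of_le hM'
    exact_mod_cast hi.1.le
  have h5 : ∑ n ∈ Finset.Ioc M (3 * M), (1 : ℝ) / M = 2 := by
    rw [Finset.sum_const, Nat.card_Ioc, nsmul_eq_mul]
    have : 3 * M - M = 2 * M := by omega
    rw [this]
    have hM' : (M : ℝ) ≠ 0 := by positivity
    push_cast
    field_simp
  linarith

lemma H_tendsto : Tendsto (fun M : ℕ => hs (fun _ => True) M) atTop atTop := by
  classical
  have h1 : ∀ N, hs (fun _ => True) N = ∑ i ∈ Finset.range N, (1 : ℝ) / ((i : ℝ) + 1) := by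
    intro N
    induction N with
    | zero => simp [hs]
    | succ N ih => rw [hs_succ, ih, Finset.sum_range_succ]; simp
  simp_rw [h1]
  exact Real.tendsto_sum_range_one_div_nat_succ_atTop

lemma upper (A : Set ℕ) (hpos : ∀ a ∈ A, 0 < a) (hA : TripleFree A) (d : ℝ)
    (hd : HasDensity A d) : d ≤ 3 / 4 := by
  classical
  by_contra hcon
  push Not at hcon
  set ε : ℝ := (d - 3 / 4) / 2 with hε
  have hε0 : 0 < ε := by rw [hε]; linarith
  have h1 : ∀ᶠ x : ℝ in atTop, 3 / 4 + ε < (countUpTo A x : ℝ) / x := by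
    apply hd.eventually (lt_mem_nhds _)
    rw [hε]; linarith
  obtain ⟨X, hX⟩ := eventually_atTop.1 h1
  obtain ⟨K, hK⟩ := exists_nat_ge (max X 1)
  have hK1 : 1 ≤ K := by
    have : (1 : ℝ) ≤ K := (le_max_right _ _).trans hK
    exact_mod_cast this
  set γ : ℝ := 1 / 4 - ε with hγ
  have hB : ∀ k : ℕ, K ≤ k → (cnt (fun n => n ∉ A) k : ℝ) ≤ γ * k := by
    intro k hk
    have hk' : (K : ℝ) ≤ k := by exact_mod_cast hk
    have hkX : X ≤ k := (le_max_left _ _).trans (hK.trans hk')
    have hk0 : (0 : ℝ) < k := by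
      have : (1 : ℝ) ≤ K := by exact_mod_cast hK1
      linarith
    have h2 := hX k hkX
    rw [countUpTo_eq A hpos _ hk0.le, Nat.floor_natCast] at h2
    rw [lt_div_iff₀ hk0] at h2
    rw [cnt_compl, hγ]
    nlinarith
  have hγ0 : 0 ≤ γ := by
    have h2 := hB K le_rfl
    have hK0 : (0 : ℝ) < K := by positivity
    have h3 : (0 : ℝ) ≤ γ * K := le_trans (by positivity) h2
    by_contra hc
    push Not at hc
    nlinarith
  have main : ∀ M : ℕ, 1 ≤ M → ε * hs (fun _ => True) M ≤ 1 + K + 2 * γ := by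
    intro M hM
    have i1 := triple_ineq A hA M
    have i2 := hs_E_lower M
    have i3 := abel (fun n => n ∉ A) (3 * M)
    have i4 : (cnt (fun n => n ∉ A) (3 * M) : ℝ) / (((3 * M : ℕ) : ℝ) + 1) ≤ 1 := by
      rw [div_le_one (by positivity)]
      have := cnt_le (fun n => n ∉ A) (3 * M)
      have h' : (cnt (fun n => n ∉ A) (3 * M) : ℝ) ≤ ((3 * M : ℕ) : ℝ) := by exact_mod_cast this
      linarith
    have i5 : ∑ k ∈ Finset.Icc 1 (3 * M), (cnt (fun n => n ∉ A) k : ℝ) / (k * (k + 1)) ≤
        ∑ k ∈ Finset.Icc 1 (3 * M), ((if k < K then (1 : ℝ) else 0) + γ * (1 / k)) := by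
      apply Finset.sum_le_sum
      intro k hk
      simp only [Finset.mem_Icc] at hk
      have hk0 : (0 : ℝ) < k := by have := hk.1; positivity
      split_ifs with hkK
      · have h' : (cnt (fun n => n ∉ A) k : ℝ) ≤ k := by exact_mod_cast cnt_le _ k
        have : (cnt (fun n => n ∉ A) k : ℝ) / (k * (k + 1)) ≤ 1 := by
          rw [div_le_one (by positivity)]
          nlinarith
        have h2 : 0 ≤ γ * (1 / k) := by positivity
        linarith
      · push Not at hkK
        have h' := hB k hkK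
        rw [zero_add]
        rw [mul_one_div, div_le_div_iff₀ (by positivity) hk0]
        nlinarith [mul_nonneg hγ0 hk0.le, mul_nonneg hγ0 (mul_nonneg hk0.le hk0.le)]
    rw [Finset.sum_add_distrib, ← Finset.mul_sum] at i5
    have i6 : ∑ k ∈ Finset.Icc 1 (3 * M), (if k < K then (1 : ℝ) else 0) ≤ K := by
      rw [← Finset.sum_filter, Finset.sum_const, nsmul_eq_mul, mul_one]
      have : ((Finset.Icc 1 (3 * M)).filter (fun k => k < K)).card ≤ (Finset.range K).card := by
        apply Finset.card_le_card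
        intro x hx
        simp only [Finset.mem_filter, Finset.mem_range] at hx ⊢
        exact hx.2
      rw [Finset.card_range] at this
      exact_mod_cast this
    have i7 : ∑ k ∈ Finset.Icc 1 (3 * M), (1 : ℝ) / k = hs (fun _ => True) (3 * M) := by
      unfold hs; congr 1; simp
    rw [i7] at i5
    have i8 := H_three M hM
    have i9 : γ * hs (fun _ => True) (3 * M) ≤ γ * (hs (fun _ => True) M + 2) :=
      mul_le_mul_of_nonneg_left i8 hγ0
    rw [hγ] at i9 ⊢
    rw [hγ] at i5
    nlinarith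
  obtain ⟨M, hM1, hM2⟩ := ((H_tendsto.eventually_gt_atTop ((1 + K + 2 * γ) / ε)).and
    (eventually_ge_atTop 1)).exists
  have := main M hM2
  rw [div_lt_iff₀ hε0] at hM1
  linarith

/-- the extremal set: positive integers with even 3-adic valuation -/
def A0 : Set ℕ := {n | 0 < n ∧ E n}

lemma A0_free : TripleFree A0 := by
  intro n hn h
  have h1 := h.1.2
  have h3 := h.2.2.2
  rw [E_three_mul hn] at h3
  exact h3 h1

lemma cnt_A0 (N : ℕ) : cnt (fun n => n ∈ A0) N = cnt E N := by
  classical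
  unfold cnt
  congr 1
  ext n
  simp only [Finset.mem_filter, Finset.mem_Icc, A0, Set.mem_setOf_eq]
  constructor
  · rintro ⟨h1, h2⟩; exact ⟨h1, h2.2⟩
  · rintro ⟨h1, h2⟩; exact ⟨h1, by omega, h2⟩

lemma A0_density : HasDensity A0 (3 / 4) := by
  unfold HasDensity
  have hb : ∀ x : ℝ, 1 ≤ x → |(countUpTo A0 x : ℝ) / x - 3 / 4| ≤ (Real.log x + 2) / x := by
    intro x hx
    have hx0 : 0 < x := by linarith
    rw [countUpTo_eq A0 (fun a ha => ha.1) x hx0.le, cnt_A0]
    set N := ⌊x⌋₊ with hN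
    have hN1 : 1 ≤ N := Nat.le_floor (by simpa using hx)
    have hNx : (N : ℝ) ≤ x := Nat.floor_le hx0.le
    have hxN : x < N + 1 := Nat.lt_floor_add_one x
    have hb1 : |4 * (cnt E N : ℝ) - 3 * N| ≤ 2 * (Nat.log 3 N + 1) := by
      have := cnt_E_bound N
      exact_mod_cast this
    have hlog : (Nat.log 3 N : ℝ) ≤ Real.log x := by
      have h1 : (Nat.log 3 N : ℝ) ≤ Real.logb 3 N := by exact_mod_cast Real.natLog_le_logb N 3
      have h2 : Real.logb 3 N ≤ Real.log N := by
        unfold Real.logb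
        apply div_le_self (Real.log_nonneg (by exact_mod_cast hN1))
        rw [Real.le_log_iff_exp_le (by norm_num)]
        have := Real.exp_one_lt_d9
        linarith
      have h3 : Real.log N ≤ Real.log x := Real.log_le_log (by exact_mod_cast hN1) hNx
      linarith
    have e : (cnt E N : ℝ) / x - 3 / 4 = ((4 * (cnt E N : ℝ) - 3 * N) + 3 * (N - x)) / (4 * x) := by
      field_simp
      ring
    rw [e, abs_div, abs_of_pos (by positivity : (0:ℝ) < 4 * x), div_le_div_iff₀ (by positivity) hx0]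
    have h5 : |(4 * (cnt E N : ℝ) - 3 * N) + 3 * (N - x)| ≤ 2 * (Nat.log 3 N + 1) + 3 := by
      refine (abs_add_le _ _).trans ?_
      have : |3 * ((N : ℝ) - x)| ≤ 3 := by
        rw [abs_le]; constructor <;> linarith
      linarith
    have hl0 : 0 ≤ Real.log x := Real.log_nonneg hx
    nlinarith
  have hlim : Tendsto (fun x : ℝ => (Real.log x + 2) / x) atTop (𝓝 0) := by
    have h1 : Tendsto (fun x : ℝ => Real.log x / x) atTop (𝓝 0) := by
      have := Real.isLittleO_log_id_atTop.tendsto_div_nhds_zero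
      simpa using this
    have h2 : Tendsto (fun x : ℝ => (2 : ℝ) / x) atTop (𝓝 0) :=
      Tendsto.const_div_atTop tendsto_id 2
    have h3 := h1.add h2
    simp only [add_zero] at h3
    refine h3.congr (fun x => ?_)
    rw [add_div]
  rw [tendsto_iff_norm_sub_tendsto_zero]
  apply squeeze_zero' (Eventually.of_forall fun x => norm_nonneg _) _ hlim
  filter_upwards [eventually_ge_atTop (1 : ℝ)] with x hx
  rw [Real.norm_eq_abs]
  exact hb x hx

/-- The largest density of a set of positive integers without a triple `n, 2n, 3n` is exactly `3/4`: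
the supremum over all such sets having a density equals `3/4`, and it is attained. -/
theorem result :
    sSup {d : ℝ | ∃ A : Set ℕ, (∀ a ∈ A, 0 < a) ∧ TripleFree A ∧ HasDensity A d} = 3 / 4 ∧
    IsGreatest {d : ℝ | ∃ A : Set ℕ, (∀ a ∈ A, 0 < a) ∧ TripleFree A ∧ HasDensity A d} (3 / 4) := by
  have h : IsGreatest {d : ℝ | ∃ A : Set ℕ, (∀ a ∈ A, 0 < a) ∧ TripleFree A ∧ HasDensity A d}
      (3 / 4) := by
    refine ⟨⟨A0, fun a ha => ha.1, A0_free, A0_density⟩, ?_⟩
    rintro d ⟨A, hpos, hA, hd⟩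
    exact upper A hpos hA d hd
  exact ⟨h.csSup_eq, h⟩

end Pool.Agent.Results.MP_37c1b2_nt.DensityThreeQuarters
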